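import Mathlib

set_option autoImplicit false

namespace Pool.Agent.D0H99.Feyn

open Finset

/-- summation by parts for a self-adjoint three term recurrence -/
lemma energy_identity (u A δ : ℕ → ℝ) (hA0 : A 0 = 0) (K : ℕ)
    (hrec : ∀ i, 1 ≤ i → i ≤ K →
      A i * (u (i+1) - u i) - A (i-1) * (u i - u (i-1)) = δ i * u i) :
    ∀ k, k ≤ K → A k * u k * (u (k+1) - u k) =
      ∑ i ∈ Ioc 0 k, (A (i-1) * (u i - u (i-1)) ^ 2 + δ i * u i ^ 2) := by
  intro k
  induction k with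
  | zero => intro _; simp [hA0]
  | succ k ih =>
    intro hk
    have h1 := ih (by omega)
    have h2 := hrec (k+1) (by omega) hk
    rw [sum_Ioc_succ_top (by omega)]
    rw [← h1]
    simp only [Nat.add_sub_cancel] at h2 ⊢
    linear_combination (u (k+1)) * h2

/-- the growth lemma -/
lemma growth (u A δ : ℕ → ℝ) (hA0 : A 0 = 0) (K M M1 : ℕ) (K1 a d : ℝ)
    (hrec : ∀ i, 1 ≤ i → i ≤ K →
      A i * (u (i+1) - u i) - A (i-1) * (u i - u (i-1)) = δ i * u i)
    (hMK : M ≤ K) (hM1 : 1 ≤ M1) (hM1M : M1 ≤ M) (hK1 : 0 ≤ K1)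
    (hA : ∀ i, i < K → 0 ≤ A i) (hAK : 0 < A K)
    (ha : ∀ i, K - M < i → i ≤ K → a ≤ A (i-1))
    (hδ0 : ∀ i, 1 ≤ i → i ≤ K - M1 → 0 ≤ δ i)
    (hδ1 : ∀ i, K - M < i → i ≤ K - M1 → d ≤ δ i)
    (hδ2 : ∀ i, K - M1 < i → i ≤ K → -K1 ≤ δ i)
    (hlarge : 4 * M * (M1 * K1) < a) (hMd : 4 * (M1 * K1) < (M - M1) * d) (ha0 : 0 < a)
    (hd0 : 0 ≤ d)
    (hu : u K ≠ 0) : u K ^ 2 < u (K+1) ^ 2 := by
  have hid := energy_identity u A δ hA0 K hrec K le_rfl
  -- maximum on the window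
  obtain ⟨m, hm, hmax⟩ := exists_max_image (Ioc (K - M1) K) (fun i => |u i|)
    ⟨K, by simp; omega⟩
  rw [mem_Ioc] at hm
  set U := |u m| with hU
  have hUpos : 0 < U := lt_of_lt_of_le (abs_pos.2 hu) (hmax K (by simp; omega))
  have hKpos : 0 < K := by omega
  -- split the sums
  have hsplit : ∑ i ∈ Ioc 0 K, (A (i-1) * (u i - u (i-1)) ^ 2 + δ i * u i ^ 2) =
      ∑ i ∈ Ioc 0 K, A (i-1) * (u i - u (i-1)) ^ 2 + ∑ i ∈ Ioc 0 K, δ i * u i ^ 2 :=
    sum_add_distrib
  have hIoc : ∑ i ∈ Ioc 0 (K - M), δ i * u i ^ 2 + (∑ i ∈ Ioc (K - M) (K - M1), δ i * u i ^ 2 +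
      ∑ i ∈ Ioc (K - M1) K, δ i * u i ^ 2) = ∑ i ∈ Ioc 0 K, δ i * u i ^ 2 := by
    rw [sum_Ioc_consecutive _ (by omega) (by omega), sum_Ioc_consecutive _ (by omega) (by omega)]
  have hneg : -(M1 * K1 * U ^ 2) ≤ ∑ i ∈ Ioc (K - M1) K, δ i * u i ^ 2 := by
    have h1 : ∑ i ∈ Ioc (K - M1) K, (-(K1 * U ^ 2)) ≤ ∑ i ∈ Ioc (K - M1) K, δ i * u i ^ 2 := by
      apply sum_le_sum
      intro i hi
      have hi' := mem_Ioc.1 hi
      have h2 := hδ2 i hi'.1 hi'.2
      have h3 : u i ^ 2 ≤ U ^ 2 := by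
        rw [← sq_abs (u i)]
        exact pow_le_pow_left₀ (abs_nonneg _) (hmax i hi) 2
      have h4 : 0 ≤ u i ^ 2 := sq_nonneg _
      nlinarith [mul_nonneg hK1 (sub_nonneg.2 h3), mul_nonneg (by linarith : 0 ≤ δ i + K1) h4]
    rw [sum_const, Nat.card_Ioc, nsmul_eq_mul] at h1
    have h5 : ((K - (K - M1) : ℕ) : ℝ) = M1 := by
      rw [show K - (K - M1) = M1 by omega]
    rw [h5] at h1
    linarith
  have hpos1 : 0 ≤ ∑ i ∈ Ioc 0 (K - M), δ i * u i ^ 2 :=
    sum_nonneg fun i hi => mul_nonneg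
      (hδ0 i (by have := (mem_Ioc.1 hi).1; omega) (by have := (mem_Ioc.1 hi).2; omega))
      (sq_nonneg _)
  have hpos2 : 0 ≤ ∑ i ∈ Ioc (K - M) (K - M1), δ i * u i ^ 2 :=
    sum_nonneg fun i hi => mul_nonneg
      (hδ0 i (by have := (mem_Ioc.1 hi).1; omega) (by have := (mem_Ioc.1 hi).2; omega))
      (sq_nonneg _)
  have hpos3 : 0 ≤ ∑ i ∈ Ioc 0 K, A (i-1) * (u i - u (i-1)) ^ 2 :=
    sum_nonneg fun i hi => mul_nonneg
      (hA (i-1) (by have := mem_Ioc.1 hi; omega)) (sq_nonneg _)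
  have hU2 : 0 < U ^ 2 := by positivity
  have hkey : 0 < ∑ i ∈ Ioc 0 K, (A (i-1) * (u i - u (i-1)) ^ 2 + δ i * u i ^ 2) := by
    rw [hsplit, ← hIoc]
    by_cases hcase : ∃ j, K - M < j ∧ j ≤ K ∧ |u j| ≤ U / 2
    · obtain ⟨j, hj1, hj2, hj3⟩ := hcase
      -- Cauchy-Schwarz
      have hcs : a * (U / 2) ^ 2 ≤ M * ∑ i ∈ Ioc 0 K, A (i-1) * (u i - u (i-1)) ^ 2 := by
        have tele : ∀ p q : ℕ, K - M < p → p ≤ q → q ≤ K →
            a * (u q - u p) ^ 2 ≤ M * ∑ i ∈ Ioc 0 K, A (i-1) * (u i - u (i-1)) ^ 2 := by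
          intro p q hp hpq hq
          have h1 : u q - u p = ∑ i ∈ Ioc p q, (u i - u (i-1)) := by
            clear hq
            induction q, hpq using Nat.le_induction with
            | base => simp
            | succ q hpq ih =>
              rw [sum_Ioc_succ_top (by omega), ← ih]
              simp
          have h2 : (u q - u p) ^ 2 ≤ (Ioc p q).card * ∑ i ∈ Ioc p q, (u i - u (i-1)) ^ 2 := by
            rw [h1]; exact sq_sum_le_card_mul_sum_sq
          have h3 : ((Ioc p q).card : ℝ) ≤ M := by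
            rw [Nat.card_Ioc]; exact_mod_cast (by omega : q - p ≤ M)
          have h4 : a * ∑ i ∈ Ioc p q, (u i - u (i-1)) ^ 2 ≤
              ∑ i ∈ Ioc p q, A (i-1) * (u i - u (i-1)) ^ 2 := by
            rw [mul_sum]
            apply sum_le_sum
            intro i hi
            have hi' := mem_Ioc.1 hi
            exact mul_le_mul_of_nonneg_right (ha i (by omega) (by omega)) (sq_nonneg _)
          have h5 : ∑ i ∈ Ioc p q, A (i-1) * (u i - u (i-1)) ^ 2 ≤
              ∑ i ∈ Ioc 0 K, A (i-1) * (u i - u (i-1)) ^ 2 := by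
            apply sum_le_sum_of_subset_of_nonneg
            · intro i hi
              have hi' := mem_Ioc.1 hi
              exact mem_Ioc.2 ⟨by omega, by omega⟩
            · intro i hi _
              exact mul_nonneg (hA (i-1) (by have := mem_Ioc.1 hi; omega)) (sq_nonneg _)
          have h6 : 0 ≤ ∑ i ∈ Ioc p q, (u i - u (i-1)) ^ 2 := sum_nonneg fun _ _ => sq_nonneg _
          calc a * (u q - u p) ^ 2 ≤ a * ((Ioc p q).card * ∑ i ∈ Ioc p q, (u i - u (i-1)) ^ 2) :=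
                mul_le_mul_of_nonneg_left h2 ha0.le
            _ = (Ioc p q).card * (a * ∑ i ∈ Ioc p q, (u i - u (i-1)) ^ 2) := by ring
            _ ≤ M * (a * ∑ i ∈ Ioc p q, (u i - u (i-1)) ^ 2) :=
                mul_le_mul_of_nonneg_right h3 (by positivity)
            _ ≤ M * ∑ i ∈ Ioc 0 K, A (i-1) * (u i - u (i-1)) ^ 2 :=
                mul_le_mul_of_nonneg_left (h4.trans h5) (by positivity)
        have hdiff : (U / 2) ^ 2 ≤ (u m - u j) ^ 2 := by
          have h1 : U / 2 ≤ |u m - u j| := by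
            have := abs_sub_abs_le_abs_sub (u m) (u j)
            linarith
          rw [← sq_abs (u m - u j)]
          exact pow_le_pow_left₀ (by positivity) h1 2
        rcases le_total j m with h | h
        · have := tele j m hj1 h hm.2
          nlinarith [mul_le_mul_of_nonneg_left hdiff ha0.le]
        · have := tele m j (by omega) h hj2
          have h7 : (u j - u m) ^ 2 = (u m - u j) ^ 2 := by ring
          rw [h7] at this
          nlinarith [mul_le_mul_of_nonneg_left hdiff ha0.le]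
      have hMpos : (0 : ℝ) < M := by exact_mod_cast (by omega : 0 < M)
      have h8 : M * (M1 * K1 * U ^ 2) < a * (U / 2) ^ 2 := by nlinarith
      have h9 : M1 * K1 * U ^ 2 < ∑ i ∈ Ioc 0 K, A (i-1) * (u i - u (i-1)) ^ 2 :=
        lt_of_mul_lt_mul_left (h8.trans_le hcs) hMpos.le
      linarith
    · push Not at hcase
      have h1 : (M - M1) * d * (U / 2) ^ 2 ≤ ∑ i ∈ Ioc (K - M) (K - M1), δ i * u i ^ 2 := by
        have h2 : ∑ i ∈ Ioc (K - M) (K - M1), (d * (U / 2) ^ 2) ≤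
            ∑ i ∈ Ioc (K - M) (K - M1), δ i * u i ^ 2 := by
          apply sum_le_sum
          intro i hi
          have hi' := mem_Ioc.1 hi
          have h3 := hδ1 i hi'.1 hi'.2
          have h4 : (U / 2) ^ 2 ≤ u i ^ 2 := by
            rw [← sq_abs (u i)]
            exact pow_le_pow_left₀ (by positivity) (hcase i hi'.1 (by omega)).le 2
          have h5 : 0 ≤ (U / 2) ^ 2 := sq_nonneg _
          calc d * (U / 2) ^ 2 ≤ d * u i ^ 2 := mul_le_mul_of_nonneg_left h4 hd0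
            _ ≤ δ i * u i ^ 2 := mul_le_mul_of_nonneg_right h3 (sq_nonneg _)
        rw [sum_const, Nat.card_Ioc, nsmul_eq_mul] at h2
        have h5 : ((K - M1 - (K - M) : ℕ) : ℝ) = M - M1 := by
          rw [show K - M1 - (K - M) = M - M1 by omega, Nat.cast_sub hM1M]
        rw [h5] at h2
        linarith
      have h6 : M1 * K1 * U ^ 2 < (M - M1) * d * (U / 2) ^ 2 := by nlinarith
      linarith
  rw [← hid] at hkey
  have h1 : 0 < u K * (u (K+1) - u K) := by
    rw [mul_assoc] at hkey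
    exact (mul_pos_iff_of_pos_left hAK).1 hkey
  nlinarith [sq_nonneg (u (K+1) - u K)]

end Pool.Agent.D0H99.Feyn
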