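import Mathlib
import Pool.Agent.D0H99.FeynAbs

set_option autoImplicit false

namespace Pool.Agent.D0H99.Feyn

/-- real parts: `(right, left)` amplitudes (unnormalised) -/
def RL : ℕ → (ℤ → ℤ) × (ℤ → ℤ)
  | 0 => (fun x => if x = 1 then 1 else 0, fun _ => 0)
  | n + 1 => (fun x => (RL n).1 (x - 1) - (RL n).2 (x - 1),
      fun x => (RL n).2 (x + 1) + (RL n).1 (x + 1))

lemma RL_succ_fst (n : ℕ) (x : ℤ) :
    (RL (n+1)).1 x = (RL n).1 (x - 1) - (RL n).2 (x - 1) := rfl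

lemma RL_succ_snd (n : ℕ) (x : ℤ) :
    (RL (n+1)).2 x = (RL n).2 (x + 1) + (RL n).1 (x + 1) := rfl

lemma RL_rec (n : ℕ) : ∀ x : ℤ,
    ((n : ℤ) - 1 - x) * (RL n).1 (x + 2) = (n + 1 - x) * (RL n).1 x + 2 * x * (RL n).2 x ∧
    2 * (x + 1) * (RL n).1 (x + 2) = (n + 1 + x) * ((RL n).2 x - (RL n).2 (x + 2)) := by
  induction n with
  | zero =>
    intro x
    simp only [RL]
    constructor
    · by_cases h1 : x = 1
      · subst h1; norm_num
      · by_cases h2 : x = -1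
        · subst h2; norm_num
        · have : x + 2 ≠ 1 := by omega
          simp [h1, this]
    · by_cases h2 : x = -1
      · subst h2; norm_num
      · have : x + 2 ≠ 1 := by omega
        simp [this]
  | succ n ih =>
    intro x
    have a1 := (ih (x - 1)).1
    have a2 := (ih (x - 1)).2
    have b1 := (ih (x + 1)).1
    have b2 := (ih (x + 1)).2
    simp only [RL_succ_fst, RL_succ_snd]
    rw [show x - 1 + 2 = x + 1 by ring] at a1 a2
    rw [show x + 1 + 2 = x + 3 by ring] at b1 b2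
    rw [show x + 2 - 1 = x + 1 by ring, show x + 2 + 1 = x + 3 by ring]
    push_cast
    constructor
    · linear_combination a1 - a2
    · linear_combination b1 + b2

/-- support and parity -/
lemma RL_supp (n : ℕ) : ∀ x : ℤ, ((RL n).1 x ≠ 0 ∨ (RL n).2 x ≠ 0) →
    ∃ k : ℕ, k ≤ n ∧ x = n + 1 - 2 * k := by
  induction n with
  | zero =>
    intro x h
    simp only [RL] at h
    refine ⟨0, le_rfl, ?_⟩
    by_contra hx
    have : x ≠ 1 := by intro h2; apply hx; simp [h2]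
    simp [this] at h
  | succ n ih =>
    intro x h
    simp only [RL_succ_fst, RL_succ_snd] at h
    by_cases h1 : (RL n).1 (x - 1) ≠ 0 ∨ (RL n).2 (x - 1) ≠ 0
    · obtain ⟨k, hk, hx⟩ := ih _ h1
      exact ⟨k, by omega, by push_cast; linarith⟩
    · by_cases h2 : (RL n).1 (x + 1) ≠ 0 ∨ (RL n).2 (x + 1) ≠ 0
      · obtain ⟨k, hk, hx⟩ := ih _ h2
        exact ⟨k + 1, by omega, by push_cast; linarith⟩
      · push Not at h1 h2
        simp [h1.1, h1.2, h2.1, h2.2] at h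

/-- `R` at distance `2i` from the front, with sign -/
noncomputable def uR (n : ℕ) (i : ℕ) : ℝ := (-1) ^ i * ((RL n).1 (n + 1 - 2 * i) : ℝ)
/-- `l` at distance `2i` from the front, with sign -/
noncomputable def uL (n : ℕ) (i : ℕ) : ℝ := (-1) ^ i * ((RL n).2 (n + 1 - 2 * i) : ℝ)

/-- weights for the left component -/
noncomputable def AL (n : ℕ) (i : ℕ) : ℝ := 2 * i * (n - i) / (n - 2 * i)
noncomputable def DL (n : ℕ) (i : ℕ) : ℝ :=
  2 * (n + 1 - 2 * i) - 2 * AL n i - 4 * (i - 1) * (n + 1 - i) / (n + 2 - 2 * i)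
/-- weights for the right component -/
noncomputable def AR (n : ℕ) (i : ℕ) : ℝ := 2 * i * (i + 1) / (n - 1 - 2 * i)
noncomputable def DR (n : ℕ) (i : ℕ) : ℝ :=
  2 * i * ((n - 2 * i) / (n - i) - (2 * i + 1) / (n - 1 - 2 * i) - (2 * i - 1) / (n + 1 - 2 * i))

lemma basic (n i : ℕ) (hi : 1 ≤ i) :
    ((i : ℝ) - 1) * -uR n (i-1) = i * uR n i + (n + 1 - 2 * i) * uL n i ∧
    ((n : ℝ) + 2 - 2 * i) * -uR n (i-1) = (n + 1 - i) * (uL n i + uL n (i-1)) := by
  obtain ⟨j, rfl⟩ : ∃ j, i = j + 1 := ⟨i - 1, by omega⟩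
  have h := RL_rec n (n + 1 - 2 * ((j + 1 : ℕ) : ℤ))
  rw [show (n : ℤ) + 1 - 2 * ((j + 1 : ℕ) : ℤ) + 2 = n + 1 - 2 * (j : ℤ) by push_cast; ring] at h
  obtain ⟨h1, h2⟩ := h
  have h1' := congrArg (fun z : ℤ => (z : ℝ)) h1
  have h2' := congrArg (fun z : ℤ => (z : ℝ)) h2
  simp only [Int.cast_mul, Int.cast_sub, Int.cast_add, Int.cast_natCast, Int.cast_one,
    Int.cast_ofNat] at h1' h2'
  simp only [Nat.add_sub_cancel]
  unfold uR uL
  constructor
  · push_cast at h1' ⊢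
    rw [pow_succ]
    linear_combination (-1) ^ j * (-1/2 : ℝ) * h1'
  · push_cast at h2' ⊢
    rw [pow_succ]
    linear_combination (-1) ^ j * (-1/2 : ℝ) * h2'

lemma rec_L (n i : ℕ) (hi : 1 ≤ i) (hn : 2 * i < n) :
    AL n i * (uL n (i+1) - uL n i) - AL n (i-1) * (uL n i - uL n (i-1)) = DL n i * uL n i := by
  obtain ⟨h1, h2⟩ := basic n i hi
  obtain ⟨h3, h4⟩ := basic n (i+1) (by omega)
  obtain ⟨j, rfl⟩ : ∃ j, i = j + 1 := ⟨i - 1, by omega⟩
  simp only [Nat.add_sub_cancel] at h1 h2 h3 h4 ⊢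
  have hn' : (2 : ℝ) * (j + 1) < n := by exact_mod_cast hn
  have e1 : (n : ℝ) - 2 * (j + 1) ≠ 0 := by linarith
  have e2 : (n : ℝ) + 2 - 2 * (j + 1) ≠ 0 := by linarith
  have e3 : (n : ℝ) - 2 * j ≠ 0 := by linarith
  unfold DL AL
  push_cast at h1 h2 h3 h4 ⊢
  have g2 : -uR n j = (n - j) * (uL n (j+1) + uL n j) / (n - 2 * j) := by
    rw [eq_div_iff e3]; linear_combination h2
  have g4 : -uR n (j+1) = (n - (j + 1)) * (uL n (j+2) + uL n (j+1)) / (n - 2 * (j + 1)) := by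
    rw [eq_div_iff e1]; linear_combination h4
  have g1 : (j : ℝ) * ((n - j) * (uL n (j+1) + uL n j) / (n - 2 * j)) =
      -((j + 1) * ((n - (j + 1)) * (uL n (j+2) + uL n (j+1)) / (n - 2 * (j + 1)))) +
        (n + 1 - 2 * (j + 1)) * uL n (j+1) := by
    rw [← g2, ← g4]; linear_combination h1
  have e4 : (n : ℝ) + 2 - 2 * (j + 1) = n - 2 * j := by ring
  rw [show j + 1 + 1 = j + 2 from rfl, e4]
  field_simp at g1 ⊢
  linear_combination (2 : ℝ) * g1

lemma rec_R (n i : ℕ) (hi : 1 ≤ i) (hn : 2 * i + 1 < n) :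
    AR n i * (uR n (i+1) - uR n i) - AR n (i-1) * (uR n i - uR n (i-1)) = DR n i * uR n i := by
  obtain ⟨h1, h2⟩ := basic n i hi
  obtain ⟨h3, h4⟩ := basic n (i+1) (by omega)
  obtain ⟨j, rfl⟩ : ∃ j, i = j + 1 := ⟨i - 1, by omega⟩
  simp only [Nat.add_sub_cancel] at h1 h2 h3 h4 ⊢
  have hn' : (2 : ℝ) * (j + 1) + 1 < n := by exact_mod_cast hn
  have e1 : (n : ℝ) + 1 - 2 * (j + 1) ≠ 0 := by linarith
  have e2 : (n : ℝ) - 1 - 2 * (j + 1) ≠ 0 := by linarith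
  have e3 : (n : ℝ) - (j + 1) ≠ 0 := by
    have : (0 : ℝ) ≤ j := Nat.cast_nonneg _
    linarith
  unfold DR AR
  push_cast at h1 h2 h3 h4 ⊢
  have g1 : uL n (j+1) = (-(j * uR n j) - (j + 1) * uR n (j+1)) / (n + 1 - 2 * (j + 1)) := by
    rw [eq_div_iff e1]; linear_combination -h1
  have g3 : uL n (j+2) = (-((j+1) * uR n (j+1)) - (j + 2) * uR n (j+2)) / (n - 1 - 2 * (j + 1)) := by
    rw [eq_div_iff e2, show j + 2 = j + 1 + 1 from rfl]
    linear_combination -h3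
  rw [show j + 1 + 1 = j + 2 from rfl] at h4 ⊢
  rw [g1, g3] at h4
  have e4 : (n : ℝ) - 1 - 2 * j = n + 1 - 2 * (j + 1) := by ring
  rw [e4]
  have h4' : (n : ℝ) + 2 - 2 * (j + 1 + 1) = n - 2 * (j + 1) := by ring
  have h4'' : (n : ℝ) + 1 - (j + 1 + 1) = n - (j + 1) := by ring
  rw [h4', h4''] at h4
  set a : ℝ := (n : ℝ) + 1 - 2 * (j + 1) with ha
  set b : ℝ := (n : ℝ) - 1 - 2 * (j + 1) with hb
  set c : ℝ := (n : ℝ) - (j + 1) with hc
  have h5 : (n : ℝ) - 2 * (j + 1) = (a + b) / 2 := by rw [ha, hb]; ring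
  rw [h5] at h4 ⊢
  have h6 : ((a + b) / 2) / c * uR n (j+1) = -((-((j+1) * uR n (j+1)) - (j + 2) * uR n (j+2)) / b +
      (-(j * uR n j) - (j + 1) * uR n (j+1)) / a) := by
    rw [div_mul_eq_mul_div, div_eq_iff e3]
    linear_combination -h4
  have h7 : 2 * (j + 1) * (((a + b) / 2) / c * uR n (j+1)) = 2 * (j + 1) * (-((-((j+1) * uR n (j+1)) - (j + 2) * uR n (j+2)) / b +
      (-(j * uR n j) - (j + 1) * uR n (j+1)) / a)) := by rw [h6]
  linear_combination (exp := 1) -h7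

end Pool.Agent.D0H99.Feyn
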