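import Mathlib
import Pool.Agent.D0H99.FeynRec

set_option autoImplicit false

namespace Pool.Agent.D0H99.Feyn

lemma DL_ident (n i : ℕ) (_hi : 1 ≤ i) (hn : 2 * i < n) (y : ℝ) (hy : y = n + 1 - 2 * i) :
    DL n i * (y ^ 2 - 1) = 2 * y * (2 * y ^ 2 - 2 - n ^ 2) := by
  have hn' : (2 : ℝ) * i < n := by exact_mod_cast hn
  have e1 : (n : ℝ) - 2 * i ≠ 0 := by linarith
  have e2 : (n : ℝ) + 2 - 2 * i ≠ 0 := by linarith
  unfold DL AL
  subst hy
  field_simp
  ring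

lemma DR_ident (n i : ℕ) (_hi : 1 ≤ i) (hn : 2 * i + 1 < n) (y : ℝ) (hy : y = n + 1 - 2 * i) :
    DR n i = 2 * i * (4 - 2 * n / (n - 1 + y) - n / (y - 2) - n / y) := by
  have hn' : (2 : ℝ) * i + 1 < n := by exact_mod_cast hn
  have e1 : (n : ℝ) - i ≠ 0 := by
    have : (0 : ℝ) ≤ i := Nat.cast_nonneg _
    linarith
  have e2 : (n : ℝ) - 1 - 2 * i ≠ 0 := by linarith
  have e3 : (n : ℝ) + 1 - 2 * i ≠ 0 := by linarith
  have e4 : (n : ℝ) - 1 + y ≠ 0 := by
    subst hy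
    have : (n : ℝ) - 1 + (n + 1 - 2 * i) = 2 * (n - i) := by ring
    rw [this]
    exact mul_ne_zero two_ne_zero e1
  have e5 : y - 2 ≠ 0 := by subst hy; intro h; apply e2; linarith
  have e6 : y ≠ 0 := by subst hy; exact e3
  unfold DR
  congr 1
  have h1 : ((n : ℝ) - 2 * i) / (n - i) = 2 - 2 * n / (n - 1 + y) := by
    rw [eq_sub_iff_add_eq, div_add_div _ _ e1 e4, div_eq_iff (mul_ne_zero e1 e4)]
    subst hy; ring
  have h2 : (2 * (i : ℝ) + 1) / (n - 1 - 2 * i) = n / (y - 2) - 1 := by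
    rw [eq_sub_iff_add_eq, div_add' _ _ _ e2, div_eq_div_iff e2 e5]
    subst hy; ring
  have h3 : (2 * (i : ℝ) - 1) / (n + 1 - 2 * i) = n / y - 1 := by
    rw [eq_sub_iff_add_eq, div_add' _ _ _ e3, div_eq_div_iff e3 e6]
    subst hy; ring
  rw [h1, h2, h3]; ring

lemma DL_pos {n i : ℕ} (hi : 1 ≤ i) (hn : 2 * i < n) {y : ℝ} (hy : y = n + 1 - 2 * i)
    (h : ((n : ℝ) + 1) ^ 2 ≤ 2 * y ^ 2) : 1 ≤ DL n i := by
  have hn' : (2 : ℝ) * i < n := by exact_mod_cast hn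
  have hi' : (1 : ℝ) ≤ i := by exact_mod_cast hi
  have h1 := DL_ident n i hi hn y hy
  have hy1 : 1 < y := by rw [hy]; linarith
  have hyn : y ≤ n := by rw [hy]; linarith
  have h2 : 0 < y ^ 2 - 1 := by nlinarith
  have h3 : (y ^ 2 - 1) * 1 ≤ (y ^ 2 - 1) * DL n i := by
    rw [mul_comm _ (DL n i), h1]
    have h4 : 2 * (n : ℝ) - 1 ≤ 2 * y ^ 2 - 2 - n ^ 2 := by nlinarith
    have h5 : 2 * y * (2 * (n : ℝ) - 1) ≤ 2 * y * (2 * y ^ 2 - 2 - n ^ 2) :=
      mul_le_mul_of_nonneg_left h4 (by linarith)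
    nlinarith
  exact le_of_mul_le_mul_left h3 h2

lemma DL_lower {n i c : ℕ} (hi : 1 ≤ i) (hn : 2 * i < n) (hc : 3 ≤ c) {y : ℝ}
    (hy : y = n + 1 - 2 * i)
    (h : ((n : ℝ) + 1) / √2 - c ≤ y) (hlarge : (100 : ℝ) * c ≤ n) : -(200 * c : ℝ) ≤ DL n i := by
  have hn' : (2 : ℝ) * i < n := by exact_mod_cast hn
  have hi' : (1 : ℝ) ≤ i := by exact_mod_cast hi
  have hc' : (3 : ℝ) ≤ c := by exact_mod_cast hc
  have h1 := DL_ident n i hi hn y hy
  have hyn : y ≤ n := by rw [hy]; linarith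
  have hr2 : (√2 : ℝ) ^ 2 = 2 := Real.sq_sqrt (by norm_num)
  have hr0 : 0 < (√2 : ℝ) := by positivity
  have hr1 : (√2 : ℝ) < 1.415 := by
    rw [Real.sqrt_lt' (by norm_num)]; norm_num
  have hr1' : (1.414 : ℝ) < √2 := by
    apply Real.lt_sqrt_of_sq_lt; norm_num
  set Y : ℝ := ((n : ℝ) + 1) / √2 with hY
  have hYr : Y * √2 = n + 1 := by rw [hY]; field_simp
  have hY2 : 2 * Y ^ 2 = (n + 1) ^ 2 := by
    rw [← hYr]; rw [mul_pow, hr2]; ring
  have hYlow : 0.706 * ((n : ℝ) + 1) ≤ Y := by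
    rw [← hYr]; nlinarith [show 0 ≤ Y by positivity]
  have hYup : Y ≤ 0.708 * ((n : ℝ) + 1) := by
    rw [← hYr]; nlinarith [show 0 ≤ Y by positivity]
  have hYc : 0 ≤ Y - c := by nlinarith
  have hy2 : (n + 1) ^ 2 - 3 * c * (n + 1) ≤ 2 * y ^ 2 := by
    have : (Y - c) ^ 2 ≤ y ^ 2 := pow_le_pow_left₀ hYc h 2
    nlinarith
  have hylow : ((n : ℝ) + 1) / 2 ≤ y := by linarith
  have hy10 : 10 ≤ y := by linarith
  have h2 : y ^ 2 / 2 ≤ y ^ 2 - 1 := by nlinarith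
  have h20 : 0 < y ^ 2 - 1 := by nlinarith
  have h3 : (y ^ 2 - 1) * -(200 * c : ℝ) ≤ (y ^ 2 - 1) * DL n i := by
    rw [mul_comm _ (DL n i), h1]
    have h4 : -(3 * c * ((n : ℝ) + 1)) ≤ 2 * y ^ 2 - 2 - n ^ 2 := by nlinarith
    have h5 : 2 * y * -(3 * c * ((n : ℝ) + 1)) ≤ 2 * y * (2 * y ^ 2 - 2 - n ^ 2) :=
      mul_le_mul_of_nonneg_left h4 (by linarith)
    have h6 : ((n : ℝ) + 1) * (c * y) ≤ 2 * y * (c * y) :=
      mul_le_mul_of_nonneg_right (by linarith) (by positivity)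
    have h7 : c * (y ^ 2 / 2) ≤ c * (y ^ 2 - 1) :=
      mul_le_mul_of_nonneg_left h2 (by positivity)
    have h8 : 0 ≤ c * (y ^ 2 - 1) := mul_nonneg (by linarith) h20.le
    linarith only [h5, h6, h7, h8]
  exact le_of_mul_le_mul_left h3 h20

lemma DR_pos {n i : ℕ} (hi : 1 ≤ i) (hn : 2 * i + 1 < n) {y : ℝ} (hy : y = n + 1 - 2 * i)
    (h : ((n : ℝ) + 1) / √2 + 3 ≤ y) : 2 * i * (2 / n) ≤ DR n i := by
  have hn' : (2 : ℝ) * i + 1 < n := by exact_mod_cast hn
  have hi' : (1 : ℝ) ≤ i := by exact_mod_cast hi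
  rw [DR_ident n i hi hn y hy]
  apply mul_le_mul_of_nonneg_left _ (by positivity)
  have hr2 : (√2 : ℝ) ^ 2 = 2 := Real.sq_sqrt (by norm_num)
  have hr0 : 0 < (√2 : ℝ) := by positivity
  have hr1 : (√2 : ℝ) < 1.415 := by
    rw [Real.sqrt_lt' (by norm_num)]; norm_num
  have hr1' : (1.414 : ℝ) < √2 := by
    apply Real.lt_sqrt_of_sq_lt; norm_num
  set r : ℝ := √2 with hr
  have hn0 : (0 : ℝ) < n := by linarith
  have hnr : (n : ℝ) / r ≤ (n + 1) / r := div_le_div_of_nonneg_right (by linarith) hr0.le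
  have h1 : ((n : ℝ) + r) / r ≤ y - 2 := by
    rw [add_div, div_self hr0.ne']; linarith
  have hp : 0 < ((n : ℝ) + r) / r := by positivity
  have h2 : (n : ℝ) / (y - 2) ≤ r * n / (n + r) := by
    calc (n : ℝ) / (y - 2) ≤ n / ((n + r) / r) :=
          div_le_div_of_nonneg_left hn0.le hp h1
      _ = r * n / (n + r) := by field_simp
  have h3 : (n : ℝ) / y ≤ r * n / (n + r) := by
    calc (n : ℝ) / y ≤ n / (y - 2) :=
          div_le_div_of_nonneg_left hn0.le (by linarith) (by linarith)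
      _ ≤ _ := h2
  have h4 : 2 * (n : ℝ) / (n - 1 + y) ≤ 4 - 2 * r := by
    have h5 : (n : ℝ) * (1 + 1 / r) ≤ n - 1 + y := by
      rw [mul_add, mul_one, mul_one_div]; linarith
    calc 2 * (n : ℝ) / (n - 1 + y) ≤ 2 * n / (n * (1 + 1 / r)) :=
          div_le_div_of_nonneg_left (by positivity) (by positivity) h5
      _ = 4 - 2 * r := by
          rw [div_eq_iff (by positivity)]
          field_simp
          nlinarith
  have h6 : 2 * (r * n / (n + r)) = 2 * r - 4 / (n + r) := by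
    have : (n : ℝ) + r ≠ 0 := by positivity
    field_simp
    nlinarith
  have h7 : (2 : ℝ) / n ≤ 4 / (n + r) := by
    rw [div_le_div_iff₀ hn0 (by positivity)]
    nlinarith
  linarith

lemma DR_lower {n i c : ℕ} (hi : 1 ≤ i) (hn : 2 * i + 1 < n) (hc : 3 ≤ c) {y : ℝ}
    (hy : y = n + 1 - 2 * i)
    (h : ((n : ℝ) + 1) / √2 - c ≤ y) (hlarge : (100 : ℝ) * c ≤ n) : -(200 * c : ℝ) ≤ DR n i := by
  have hn' : (2 : ℝ) * i + 1 < n := by exact_mod_cast hn
  have hi' : (1 : ℝ) ≤ i := by exact_mod_cast hi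
  have hc' : (3 : ℝ) ≤ c := by exact_mod_cast hc
  rw [DR_ident n i hi hn y hy]
  have hr2 : (√2 : ℝ) ^ 2 = 2 := Real.sq_sqrt (by norm_num)
  have hr0 : 0 < (√2 : ℝ) := by positivity
  have hr1 : (√2 : ℝ) < 1.415 := by
    rw [Real.sqrt_lt' (by norm_num)]; norm_num
  have hr1' : (1.414 : ℝ) < √2 := by
    apply Real.lt_sqrt_of_sq_lt; norm_num
  set r : ℝ := √2 with hr
  have hn0 : (0 : ℝ) < n := by linarith
  have hnr : (n : ℝ) / r ≤ (n + 1) / r := div_le_div_of_nonneg_right (by linarith) hr0.le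
  set w : ℝ := c + 3 with hw
  have hwn : 10 * w ≤ n := by linarith
  have hw0 : 0 < w := by linarith
  have h1 : ((n : ℝ) - r * w) / r ≤ y - 2 := by
    rw [sub_div, mul_div_assoc, mul_div_cancel₀ _ hr0.ne']; linarith
  have hp0 : (n : ℝ) / 2 ≤ (n : ℝ) - r * w := by nlinarith
  have hp : 0 < ((n : ℝ) - r * w) / r := div_pos (by linarith) hr0
  have h2 : (n : ℝ) / (y - 2) ≤ r + 4 * w / n := by
    calc (n : ℝ) / (y - 2) ≤ n / ((n - r * w) / r) :=
          div_le_div_of_nonneg_left hn0.le hp h1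
      _ = r + 2 * w / (n - r * w) := by
          have : (n : ℝ) - r * w ≠ 0 := by linarith
          field_simp
          nlinarith
      _ ≤ r + 4 * w / n := by
          have : 2 * w / (n - r * w) ≤ 4 * w / n := by
            rw [div_le_div_iff₀ (by linarith) hn0]
            nlinarith
          linarith
  have hy2 : 0 < y - 2 := lt_of_lt_of_le hp h1
  have h3 : (n : ℝ) / y ≤ r + 4 * w / n := by
    calc (n : ℝ) / y ≤ n / (y - 2) :=
          div_le_div_of_nonneg_left hn0.le hy2 (by linarith)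
      _ ≤ _ := h2
  have h4 : 2 * (n : ℝ) / (n - 1 + y) ≤ 4 - 2 * r + 4 * w / n := by
    have h5 : ((n : ℝ) - w) * (1 + 1 / r) ≤ n - 1 + y := by
      have : ((n : ℝ) - w) * (1 + 1 / r) = n - w + (n / r - w / r) := by ring
      rw [this]
      have : 0 ≤ w / r := by positivity
      linarith
    have h6 : 0 < (n : ℝ) - w := by linarith
    calc 2 * (n : ℝ) / (n - 1 + y) ≤ 2 * n / ((n - w) * (1 + 1 / r)) :=
          div_le_div_of_nonneg_left (by positivity) (by positivity) h5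
      _ = (4 - 2 * r) * (1 + w / (n - w)) := by
          have e1 : (n : ℝ) - w ≠ 0 := h6.ne'
          have e2 : (1 : ℝ) + w / (n - w) = n / (n - w) := by field_simp; ring
          have e3 : (1 : ℝ) + 1 / r = (r + 1) / r := by field_simp
          rw [e2, e3]
          have e4 : r + 1 ≠ 0 := by positivity
          field_simp
          nlinarith
      _ ≤ 4 - 2 * r + 4 * w / n := by
          have e1 : w / (n - w) ≤ 2 * w / n := by
            rw [div_le_div_iff₀ h6 hn0]; nlinarith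
          have e2 : 0 ≤ w / (n - w) := by positivity
          have e3 : 4 * w / n = 2 * (2 * w / n) := by ring
          rw [e3]
          nlinarith
  have h7 : -(12 * w / n) ≤ 4 - 2 * n / (n - 1 + y) - n / (y - 2) - n / y := by
    have : 12 * w / n = 3 * (4 * w / n) := by ring
    rw [this]; linarith
  have h8 : 2 * (i : ℝ) * (-(12 * w / n)) ≤ 2 * i * (4 - 2 * n / (n - 1 + y) - n / (y - 2) - n / y) :=
    mul_le_mul_of_nonneg_left h7 (by positivity)
  have h9 : 2 * (i : ℝ) * (12 * w / n) ≤ 12 * w := by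
    have : 2 * (i : ℝ) * (12 * w / n) = (2 * i / n) * (12 * w) := by ring
    rw [this]
    have h10 : 2 * (i : ℝ) / n ≤ 1 := by rw [div_le_one hn0]; linarith
    nlinarith
  have h11 : 12 * w ≤ 200 * c := by rw [hw]; linarith
  linarith

end Pool.Agent.D0H99.Feyn
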