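import Mathlib
import Pool.Agent.D0H99.FeynRec

set_option autoImplicit false

namespace Pool.Agent.D0H99.Feyn

open Finset

/-- signed sum of the steps -/
def pos {m : ℕ} (s : Fin m → Bool) : ℤ := ∑ i, (if s i then (1:ℤ) else -1)

/-- number of turns -/
def turns {n : ℕ} (s : Fin (n+1) → Bool) : ℕ :=
  (univ.filter (fun i : Fin n => s i.castSucc ≠ s i.succ)).card

lemma pos_snoc {n : ℕ} (s : Fin (n+1) → Bool) (c : Bool) :
    pos (Fin.snoc s c : Fin (n+2) → Bool) = pos s + (if c then 1 else -1) := by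
  unfold pos
  rw [Fin.sum_univ_castSucc]
  simp

lemma turns_snoc {n : ℕ} (s : Fin (n+1) → Bool) (c : Bool) :
    turns (Fin.snoc s c : Fin (n+2) → Bool) = turns s + (if s (Fin.last n) ≠ c then 1 else 0) := by
  unfold turns
  rw [card_filter, card_filter, Fin.sum_univ_castSucc]
  congr 1
  · apply sum_congr rfl
    intro i _
    have h1 : (Fin.snoc s c : Fin (n+2) → Bool) i.castSucc.castSucc = s i.castSucc := by
      rw [Fin.snoc_castSucc]
    have h2 : (Fin.snoc s c : Fin (n+2) → Bool) i.castSucc.succ = s i.succ := by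
      rw [Fin.succ_castSucc, Fin.snoc_castSucc]
    rw [h1, h2]
  · have h1 : (Fin.snoc s c : Fin (n+2) → Bool) (Fin.last n).castSucc = s (Fin.last n) := by
      rw [Fin.snoc_castSucc]
    have h2 : (Fin.snoc s c : Fin (n+2) → Bool) (Fin.last n).succ = c := by
      rw [Fin.succ_last, Fin.snoc_last]
    rw [h1, h2]

/-- partial amplitudes, with given last step -/
noncomputable def FS (n : ℕ) (y : ℤ) (b : Bool) : ℂ :=
  ∑ s : Fin (n+1) → Bool, if (s 0 = true ∧ pos s = y) ∧ s (Fin.last n) = b
    then (-Complex.I) ^ turns s else 0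

lemma FS_succ (n : ℕ) (y : ℤ) (b : Bool) :
    FS (n+1) y b = FS n (y - (if b then 1 else -1)) b +
      (-Complex.I) * FS n (y - (if b then 1 else -1)) (!b) := by
  unfold FS
  rw [← (Fin.snocEquiv (fun _ : Fin (n+2) => Bool)).sum_comp, Fintype.sum_prod_type]
  rw [mul_sum, ← sum_add_distrib, sum_comm]
  apply sum_congr rfl
  intro s _
  have h0 : ∀ c : Bool, (Fin.snoc s c : Fin (n+2) → Bool) 0 = s 0 := by
    intro c
    have : (0 : Fin (n+2)) = (0 : Fin (n+1)).castSucc := rfl
    rw [this, Fin.snoc_castSucc]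
  have key : ∀ c : Bool,
      (if ((Fin.snocEquiv (fun _ : Fin (n+2) => Bool)) (c, s) 0 = true ∧
          pos ((Fin.snocEquiv (fun _ : Fin (n+2) => Bool)) (c, s)) = y) ∧
          (Fin.snocEquiv (fun _ : Fin (n+2) => Bool)) (c, s) (Fin.last (n+1)) = b
        then (-Complex.I) ^ turns ((Fin.snocEquiv (fun _ : Fin (n+2) => Bool)) (c, s)) else 0) =
      if (s 0 = true ∧ pos s = y - (if b then 1 else -1)) ∧ c = b
        then (-Complex.I) ^ (turns s + (if s (Fin.last n) ≠ c then 1 else 0)) else 0 := by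
    intro c
    have e : (Fin.snocEquiv (fun _ : Fin (n+2) => Bool)) (c, s) =
      (Fin.snoc s c : Fin (n+2) → Bool) := rfl
    rw [e, h0, pos_snoc, turns_snoc, Fin.snoc_last]
    by_cases hcb : c = b
    · subst hcb
      have : (pos s + (if c then (1:ℤ) else -1) = y) ↔ (pos s = y - (if c then 1 else -1)) := by
        constructor <;> intro h <;> linarith
      simp only [this]
    · simp [hcb]
  rw [sum_congr rfl (fun c _ => key c)]
  rw [Fintype.sum_bool]
  by_cases hA : s 0 = true ∧ pos s = y - (if b then 1 else -1)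
  · cases b <;> cases hl : s (Fin.last n) <;> simp [hA.1, hA.2, pow_succ, mul_comm]
  · simp [hA]

lemma FS_eq (n : ℕ) : ∀ y : ℤ, FS n y true = (((RL n).1 y : ℤ) : ℂ) ∧
    FS n y false = -Complex.I * (((RL n).2 y : ℤ) : ℂ) := by
  induction n with
  | zero =>
    intro y
    unfold FS
    rw [← (Equiv.funUnique (Fin 1) Bool).symm.sum_comp, ← (Equiv.funUnique (Fin 1) Bool).symm.sum_comp]
    rw [Fintype.sum_bool, Fintype.sum_bool]
    simp [RL, pos, turns, eq_comm]
  | succ n ih =>
    intro y
    rw [FS_succ, FS_succ, RL_succ_fst, RL_succ_snd]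
    have h1 := ih (y - 1)
    have h2 := ih (y + 1)
    have e : y - (if false = true then (1:ℤ) else -1) = y + 1 := by simp
    have e' : y - (if true = true then (1:ℤ) else -1) = y - 1 := by simp
    rw [e, e']
    constructor
    · rw [Bool.not_true, h1.1, h1.2]
      push_cast
      linear_combination (((RL n).2 (y-1) : ℤ) : ℂ) * Complex.I_sq
    · rw [Bool.not_false, h2.1, h2.2]
      push_cast
      ring

/-- the squared modulus of the full path sum -/
lemma normsq (n : ℕ) (y : ℤ) :
    ‖∑ s ∈ univ.filter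
        (fun s : Fin (n+1) → Bool =>
          s 0 = true ∧ ∑ i, (if s i then (1:ℤ) else -1) = y),
      (-Complex.I) ^ ((univ.filter
        (fun i : Fin n => s i.castSucc ≠ s i.succ)).card)‖ ^ 2 =
    ((RL n).1 y : ℝ) ^ 2 + ((RL n).2 y : ℝ) ^ 2 := by
  have h : ∑ s ∈ univ.filter
        (fun s : Fin (n+1) → Bool =>
          s 0 = true ∧ ∑ i, (if s i then (1:ℤ) else -1) = y),
      (-Complex.I) ^ ((univ.filter
        (fun i : Fin n => s i.castSucc ≠ s i.succ)).card) = FS n y true + FS n y false := by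
    unfold FS
    rw [← sum_add_distrib, sum_filter]
    apply sum_congr rfl
    intro s _
    by_cases hA : s 0 = true ∧ pos s = y
    · have hA' : s 0 = true ∧ ∑ i, (if s i then (1:ℤ) else -1) = y := hA
      rw [if_pos hA']
      cases hl : s (Fin.last n)
      · simp [hA]; rfl
      · simp [hA]; rfl
    · have hA' : ¬ (s 0 = true ∧ ∑ i, (if s i then (1:ℤ) else -1) = y) := hA
      rw [if_neg hA']
      simp [hA]
  rw [h, (FS_eq n y).1, (FS_eq n y).2, ← Complex.normSq_eq_norm_sq, Complex.normSq_apply]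
  simp
  ring

end Pool.Agent.D0H99.Feyn
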