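import Mathlib
import Pool.Agent.D0H99.FeynBd
import Pool.Agent.D0H99.FeynPath

set_option autoImplicit false

namespace Pool.Agent.D0H99.Feyn

open Finset

lemma front (n : ℕ) : (RL n).1 (n + 1) = 1 ∧ (RL n).2 (n + 1) = 0 := by
  induction n with
  | zero => simp [RL]
  | succ n ih =>
    rw [RL_succ_fst, RL_succ_snd]
    push_cast
    have e1 : (n : ℤ) + 1 + 1 - 1 = n + 1 := by ring
    rw [e1, ih.1, ih.2]
    constructor
    · norm_num
    · have h : ¬ ((RL n).1 ((n:ℤ)+1+1+1) ≠ 0 ∨ (RL n).2 ((n:ℤ)+1+1+1) ≠ 0) := by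
        intro h
        obtain ⟨k, _, hk⟩ := RL_supp n _ h
        omega
      push Not at h
      rw [h.1, h.2]; norm_num

/-- both components grow from `x` to `x - 2` if `x` is near `(n+1)/√2` -/
lemma grow_at (c n K : ℕ) (hc : 3 ≤ c) (hn : 10 ^ 10 * c ^ 4 ≤ n)
    (h1 : ((n : ℝ) + 1) / √2 - c ≤ (n : ℝ) + 1 - 2 * K)
    (h2 : (n : ℝ) + 1 - 2 * K ≤ ((n : ℝ) + 1) / √2 + c) :
    (uL n K ≠ 0 → uL n K ^ 2 < uL n (K+1) ^ 2) ∧ (uR n K ≠ 0 → uR n K ^ 2 < uR n (K+1) ^ 2) := by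
  have hc' : (3 : ℝ) ≤ c := by exact_mod_cast hc
  have hn' : (10 : ℝ) ^ 10 * c ^ 4 ≤ n := by exact_mod_cast hn
  have hr0 : 0 < (√2 : ℝ) := by positivity
  have hr1 : (√2 : ℝ) < 1.415 := by
    rw [Real.sqrt_lt' (by norm_num)]; norm_num
  have hr1' : (1.414 : ℝ) < √2 := by
    apply Real.lt_sqrt_of_sq_lt; norm_num
  set Y : ℝ := ((n : ℝ) + 1) / √2 with hY
  have hYr : Y * √2 = n + 1 := by rw [hY]; field_simp
  have hY0 : 0 ≤ Y := by positivity
  have hY2 : 2 * Y ^ 2 = (n + 1) ^ 2 := by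
    rw [← hYr, mul_pow, Real.sq_sqrt (by norm_num)]; ring
  have hYlow : 0.706 * ((n : ℝ) + 1) ≤ Y := by rw [← hYr]; nlinarith
  have hYup : Y ≤ 0.708 * ((n : ℝ) + 1) := by rw [← hYr]; nlinarith
  have hc2 : (c : ℝ) ≤ c ^ 2 := by nlinarith
  have hc4 : (c : ℝ) ^ 2 ≤ c ^ 4 := by
    have : (c : ℝ) ^ 4 = c ^ 2 * c ^ 2 := by ring
    rw [this]; nlinarith
  have hc40 : (0 : ℝ) < c ^ 4 := by positivity
  -- comparisons with n
  have k1 : 10 ^ 10 * (c : ℝ) ^ 2 ≤ n := by nlinarith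
  have k2 : 10 ^ 10 * (c : ℝ) ≤ n := by nlinarith
  have hnbig : (10 : ℝ) ^ 10 ≤ n := by nlinarith
  obtain ⟨M, hM⟩ : ∃ M : ℕ, M = 4000 * c ^ 2 := ⟨_, rfl⟩
  have hM' : (M : ℝ) = 4000 * c ^ 2 := by rw [hM]; push_cast; ring
  have hK2 : 0.29 * (n : ℝ) ≤ 2 * K := by linarith
  have hK3 : 2 * (K : ℝ) ≤ 0.3 * n := by linarith
  have hMK' : (M : ℝ) ≤ K := by rw [hM']; linarith
  have hMK : M ≤ K := by exact_mod_cast hMK'
  have hcM' : (c : ℝ) ≤ M := by rw [hM']; linarith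
  have hcM : c ≤ M := by exact_mod_cast hcM'
  have hcK : c ≤ K := hcM.trans hMK
  have h2n : ∀ i, i ≤ K → 2 * i + 1 < n := by
    intro i hi
    have : (2 * (i : ℝ) + 1 < n) := by
      have : (i : ℝ) ≤ K := by exact_mod_cast hi
      linarith
    exact_mod_cast this
  have hlow : ∀ i, K - M < i → i ≤ K → (n : ℝ) / 5 + 2 ≤ 2 * i := by
    intro i hi _
    have h3 : K < i + M := by omega
    have h4 : (K : ℝ) < i + M := by exact_mod_cast h3
    rw [hM'] at h4
    linarith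
  have hyK1 : ∀ i, i ≤ K → Y - c ≤ (n : ℝ) + 1 - 2 * i := by
    intro i hi
    have : (i : ℝ) ≤ K := by exact_mod_cast hi
    linarith
  have hyK2 : ∀ i, i ≤ K - c → Y + 3 ≤ (n : ℝ) + 1 - 2 * i := by
    intro i hi
    have h3 : i + c ≤ K := by omega
    have : (i : ℝ) + c ≤ K := by exact_mod_cast h3
    linarith
  have hsq : ∀ i, i ≤ K - c → ((n : ℝ) + 1) ^ 2 ≤ 2 * ((n : ℝ) + 1 - 2 * i) ^ 2 := by
    intro i hi
    have h := hyK2 i hi
    have h3 := pow_le_pow_left₀ hY0 (by linarith : Y ≤ (n : ℝ) + 1 - 2 * i) 2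
    rw [← hY2]
    linarith only [h3]
  have hlarge : 4 * (M : ℝ) * (c * (200 * c)) < n / 100 := by
    rw [hM']
    have : 4 * (4000 * (c : ℝ) ^ 2) * (c * (200 * c)) = 3200000 * c ^ 4 := by ring
    rw [this]; linarith
  have hMd : 4 * ((c : ℝ) * (200 * c)) < (M - c) * (2 / 5) := by
    rw [hM']; nlinarith
  have hn0 : (0 : ℝ) < n := by linarith
  constructor
  · intro hu
    refine growth (uL n) (AL n) (DL n) (by simp [AL]) K M c (200 * c) (n / 100) (2 / 5)
      (fun i hi hiK => rec_L n i hi (by have := h2n i hiK; omega)) hMK (by omega) hcM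
      (by positivity) ?_ ?_ ?_ ?_ ?_ ?_ hlarge hMd (by positivity) (by norm_num) hu
    · intro i hi
      have h3 : (2 * i : ℝ) + 1 < n := by exact_mod_cast h2n i hi.le
      have h4 : (0 : ℝ) ≤ i := Nat.cast_nonneg _
      unfold AL
      exact div_nonneg (mul_nonneg (by positivity) (by linarith)) (by linarith)
    · have h3 : (2 * K : ℝ) + 1 < n := by exact_mod_cast h2n K le_rfl
      have h4 : (0 : ℝ) < K := by linarith
      unfold AL
      exact div_pos (mul_pos (by positivity) (by linarith)) (by linarith)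
    · intro i hi hiK
      have h5 := hlow i hi hiK
      obtain ⟨j, rfl⟩ : ∃ j, i = j + 1 := ⟨i - 1, by omega⟩
      have h3 : (2 * (j+1 : ℕ) : ℝ) + 1 < n := by exact_mod_cast h2n (j+1) hiK
      simp only [Nat.add_sub_cancel]
      push_cast at h3 h5
      have h4 : (0 : ℝ) ≤ j := Nat.cast_nonneg _
      unfold AL
      rw [le_div_iff₀ (by linarith)]
      nlinarith
    · intro i hi hiK
      have := DL_pos hi (by have := h2n i (by omega); omega) rfl (hsq i hiK)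
      linarith only [this]
    · intro i hi hiK
      have hi1 : 1 ≤ i := by omega
      have := DL_pos hi1 (by have := h2n i (by omega); omega) rfl (hsq i hiK)
      linarith only [this]
    · intro i hi hiK
      exact DL_lower (by omega) (by have := h2n i hiK; omega) hc rfl (hyK1 i hiK) (by linarith)
  · intro hu
    refine growth (uR n) (AR n) (DR n) (by simp [AR]) K M c (200 * c) (n / 100) (2 / 5)
      (fun i hi hiK => rec_R n i hi (h2n i hiK)) hMK (by omega) hcM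
      (by positivity) ?_ ?_ ?_ ?_ ?_ ?_ hlarge hMd (by positivity) (by norm_num) hu
    · intro i hi
      have h3 : (2 * i : ℝ) + 1 < n := by exact_mod_cast h2n i hi.le
      have h4 : (0 : ℝ) ≤ i := Nat.cast_nonneg _
      unfold AR
      exact div_nonneg (by positivity) (by linarith)
    · have h3 : (2 * K : ℝ) + 1 < n := by exact_mod_cast h2n K le_rfl
      have h4 : (0 : ℝ) < K := by linarith
      unfold AR
      exact div_pos (by positivity) (by linarith)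
    · intro i hi hiK
      have h5 := hlow i hi hiK
      obtain ⟨j, rfl⟩ : ∃ j, i = j + 1 := ⟨i - 1, by omega⟩
      have h3 : (2 * (j+1 : ℕ) : ℝ) + 1 < n := by exact_mod_cast h2n (j+1) hiK
      simp only [Nat.add_sub_cancel]
      push_cast at h3 h5
      have h4 : (n : ℝ) / 10 ≤ j := by linarith
      unfold AR
      rw [le_div_iff₀ (by linarith)]
      have h6 : (n : ℝ) / 10 * (n / 10) ≤ j * j :=
        mul_le_mul h4 h4 (by positivity) (Nat.cast_nonneg _)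
      have h7 : (n : ℝ) / 100 * (n - 1 - 2 * j) ≤ n / 100 * n :=
        mul_le_mul_of_nonneg_left (by linarith only [h4, hn0]) (by positivity)
      have h8 : (0 : ℝ) ≤ j := Nat.cast_nonneg _
      have h9 : 2 * (j : ℝ) * (j + 1) = 2 * (j * j) + 2 * j := by ring
      rw [h9]
      have h10 : (n : ℝ) / 10 * (n / 10) = n / 100 * n := by ring
      have h11 : (0 : ℝ) ≤ j * j := by positivity
      linarith only [h6, h7, h8, h10, h11]
    · intro i hi hiK
      have := DR_pos hi (h2n i (by omega)) rfl (hyK2 i hiK)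
      have h4 : (0 : ℝ) ≤ 2 * i * (2 / n) := by positivity
      linarith
    · intro i hi hiK
      have := DR_pos (by omega : 1 ≤ i) (h2n i (by omega)) rfl (hyK2 i hiK)
      have h5 := hlow i hi (by omega)
      have h4 : (2 / 5 : ℝ) ≤ 2 * i * (2 / n) := by
        have : (n : ℝ) / 5 * (2 / n) ≤ 2 * i * (2 / n) :=
          mul_le_mul_of_nonneg_right (by linarith) (by positivity)
        have h6 : (n : ℝ) / 5 * (2 / n) = 2 / 5 := by field_simp
        linarith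
      linarith
    · intro i hi hiK
      exact DR_lower (by omega) (h2n i hiK) hc rfl (hyK1 i hiK) (by linarith)

/-- the probability, unnormalised -/
noncomputable def PP (n : ℕ) (y : ℤ) : ℝ := ((RL n).1 y : ℝ) ^ 2 + ((RL n).2 y : ℝ) ^ 2

lemma uR_sq (n i : ℕ) : uR n i ^ 2 = ((RL n).1 (n + 1 - 2 * i) : ℝ) ^ 2 := by
  unfold uR; rw [mul_pow, ← pow_mul, mul_comm i 2, pow_mul]; norm_num

lemma uL_sq (n i : ℕ) : uL n i ^ 2 = ((RL n).2 (n + 1 - 2 * i) : ℝ) ^ 2 := by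
  unfold uL; rw [mul_pow, ← pow_mul, mul_comm i 2, pow_mul]; norm_num

/-- no maximiser within distance `c` of `(n+1)/√2` if `n ≥ 10^10 c^4` -/
lemma no_max (c n : ℕ) (hc : 3 ≤ c) (hn : 10 ^ 10 * c ^ 4 ≤ n) (x : ℤ)
    (hx : |(x : ℝ) - ((n : ℝ) + 1) / √2| ≤ c) (hpos : 0 < PP n x) : PP n x < PP n (x - 2) := by
  have hne : (RL n).1 x ≠ 0 ∨ (RL n).2 x ≠ 0 := by
    by_contra h
    push Not at h
    unfold PP at hpos
    rw [h.1, h.2] at hpos
    norm_num at hpos
  obtain ⟨K, _, rfl⟩ := RL_supp n x hne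
  have hx' : |((n : ℝ) + 1 - 2 * K) - ((n : ℝ) + 1) / √2| ≤ c := by
    have : ((((n : ℤ) + 1 - 2 * (K : ℤ) : ℤ)) : ℝ) = (n : ℝ) + 1 - 2 * K := by push_cast; ring
    rw [← this]; exact hx
  rw [abs_le] at hx'
  obtain ⟨g1, g2⟩ := grow_at c n K hc hn (by linarith) (by linarith)
  have e : (n : ℤ) + 1 - 2 * (K : ℤ) - 2 = n + 1 - 2 * ((K + 1 : ℕ) : ℤ) := by push_cast; ring
  unfold PP
  rw [e, ← uR_sq, ← uL_sq, ← uR_sq, ← uL_sq]
  have hR : uR n K = 0 ↔ (RL n).1 (n + 1 - 2 * K) = 0 := by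
    unfold uR
    simp
  have hL : uL n K = 0 ↔ (RL n).2 (n + 1 - 2 * K) = 0 := by
    unfold uL
    simp
  by_cases a : uR n K = 0
  · have b : uL n K ≠ 0 := by
      intro b
      rcases hne with h | h
      · exact h (hR.1 a)
      · exact h (hL.1 b)
    have := g1 b
    rw [a]
    nlinarith [sq_nonneg (uR n (K+1))]
  · have h3 := g2 a
    by_cases b : uL n K = 0
    · rw [b]; nlinarith [sq_nonneg (uL n (K+1))]
    · have := g1 b
      linarith

lemma exists_max (n : ℕ) : ∃ x : ℤ, (∀ y : ℤ, PP n y ≤ PP n x) ∧ 0 < PP n x := by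
  obtain ⟨x, hx, hmax⟩ := exists_max_image (Finset.Icc (-(n : ℤ) - 1) (n + 1)) (PP n)
    ⟨n + 1, by simp; omega⟩
  have h1 : PP n (n + 1) = 1 := by
    unfold PP; rw [(front n).1, (front n).2]; norm_num
  have hpos : 0 < PP n x := by
    have := hmax (n + 1) (by simp; omega)
    rw [h1] at this; linarith
  refine ⟨x, fun y => ?_, hpos⟩
  by_cases hy : (RL n).1 y ≠ 0 ∨ (RL n).2 y ≠ 0
  · obtain ⟨k, hk, rfl⟩ := RL_supp n y hy
    exact hmax _ (by simp; omega)
  · push Not at hy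
    have : PP n y = 0 := by unfold PP; rw [hy.1, hy.2]; norm_num
    rw [this]; exact hpos.le

theorem main : ¬ (∃ C : ℝ, ∀ n : ℕ, ∀ x : ℤ,
      (∀ y : ℤ, (2:ℝ) ^ (-(n:ℤ)) * PP n y ≤ (2:ℝ) ^ (-(n:ℤ)) * PP n x) →
      |(x:ℝ) - ((n:ℝ) + 1) / Real.sqrt 2| ≤ C) := by
  rintro ⟨C, hC⟩
  obtain ⟨c, hc3, hcC⟩ : ∃ c : ℕ, 3 ≤ c ∧ C ≤ c := by
    obtain ⟨m, hm⟩ := exists_nat_ge C
    exact ⟨max m 3, le_max_right _ _, hm.trans (by exact_mod_cast le_max_left _ _)⟩
  obtain ⟨x, hmax, hpos⟩ := exists_max (10 ^ 10 * c ^ 4)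
  have h1 := hC (10 ^ 10 * c ^ 4) x (fun y => mul_le_mul_of_nonneg_left (hmax y) (by positivity))
  have h2 := no_max c (10 ^ 10 * c ^ 4) hc3 le_rfl x (h1.trans hcC) hpos
  exact absurd (hmax (x - 2)) (not_le.2 h2)

end Pool.Agent.D0H99.Feyn
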